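import Pool.Agent.H69.Col4.Cover
import Pool.Graph.R_seed8.H613T.Defs

/-!
The expected number of blocks, and the resulting systems on `n` points.
-/

set_option autoImplicit false
set_option linter.unusedSectionVars false

open Finset

namespace Pool.Agent.H69.Col4

open Pool.Agent.X44.TS (V add_self_V card_fib)

variable {Λ : Type} [Fintype Λ] [DecidableEq Λ] [AddCommGroup Λ] {m j n : ℕ} [NeZero m]

open Classical in
/-- the number of maps for which the labels of four given vertices are in a given set -/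
lemma card_four {p q r s : Fin n} (hpq : p ≠ q) (hpr : p ≠ r) (hps : p ≠ s) (hqr : q ≠ r)
    (hqs : q ≠ s) (hrs : r ≠ s) (S : Finset (Lab m Λ j × Lab m Λ j × Lab m Λ j × Lab m Λ j)) :
    (univ.filter fun f : Fin n → Lab m Λ j => (f p, f q, f r, f s) ∈ S).card *
      (Fintype.card (Lab m Λ j)) ^ 4 = S.card * (Fintype.card (Lab m Λ j)) ^ n := by
  classical
  let θ : (Fin n → Lab m Λ j) →+ Lab m Λ j × Lab m Λ j × Lab m Λ j × Lab m Λ j :=
    { toFun := fun f => (f p, f q, f r, f s)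
      map_zero' := rfl
      map_add' := fun f g => rfl }
  have hθ : Function.Surjective θ := by
    rintro ⟨a, b, c, d⟩
    refine ⟨Pi.single p a + Pi.single q b + Pi.single r c + Pi.single s d, ?_⟩
    show ((_ : Lab m Λ j), (_ : Lab m Λ j), (_ : Lab m Λ j), (_ : Lab m Λ j)) = _
    simp only [Pi.add_apply]
    rw [Pi.single_eq_same, Pi.single_eq_same, Pi.single_eq_same, Pi.single_eq_same,
      Pi.single_eq_of_ne hpq, Pi.single_eq_of_ne hpr, Pi.single_eq_of_ne hps,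
      Pi.single_eq_of_ne hqr, Pi.single_eq_of_ne hqs, Pi.single_eq_of_ne hrs,
      Pi.single_eq_of_ne hpq.symm, Pi.single_eq_of_ne hpr.symm, Pi.single_eq_of_ne hps.symm,
      Pi.single_eq_of_ne hqr.symm, Pi.single_eq_of_ne hqs.symm, Pi.single_eq_of_ne hrs.symm]
    simp
  have h := card_fib θ hθ S
  rw [Fintype.card_prod (Lab m Λ j) (Lab m Λ j × Lab m Λ j × Lab m Λ j),
    Fintype.card_prod (Lab m Λ j) (Lab m Λ j × Lab m Λ j), Fintype.card_prod (Lab m Λ j) (Lab m Λ j),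
    show Fintype.card (Fin n → Lab m Λ j) = Fintype.card (Lab m Λ j) ^ n by
      rw [Fintype.card_fun, Fintype.card_fin]] at h
  rw [show Fintype.card (Lab m Λ j) ^ 4 = Fintype.card (Lab m Λ j) * (Fintype.card (Lab m Λ j) *
    (Fintype.card (Lab m Λ j) * Fintype.card (Lab m Λ j))) by ring]
  exact h

/-- the ordered quadruples whose set is a member of the base system -/
def B (Q : Finset (Finset Λ)) : Finset (Λ × Λ × Λ × Λ) :=
  univ.filter fun t => ({t.1, t.2.1, t.2.2.1, t.2.2.2} : Finset Λ) ∈ Q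

/-- quadruples of labels in one component that give a member of the base system -/
def SP (m j : ℕ) (Q : Finset (Finset Λ)) : Finset (Lab m Λ j × Lab m Λ j × Lab m Λ j × Lab m Λ j) :=
  univ.filter fun t => t.2.1.1 = t.1.1 ∧ t.2.2.1.1 = t.1.1 ∧ t.2.2.2.1 = t.1.1 ∧
    (t.1.2.1, t.2.1.2.1, t.2.2.1.2.1, t.2.2.2.2.1) ∈ B Q

/-- quadruples of labels that form two pairs inside classes, with sum of vectors zero -/
def SD (m : ℕ) (Λ : Type) [Fintype Λ] [DecidableEq Λ] (j : ℕ) :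
    Finset (Lab m Λ j × Lab m Λ j × Lab m Λ j × Lab m Λ j) :=
  univ.filter fun t => t.2.1.1 = t.1.1 ∧ t.2.1.2.1 = t.1.2.1 ∧ t.2.2.2.1 = t.2.2.1.1 ∧
    t.2.2.2.2.1 = t.2.2.1.2.1 ∧ t.1.2.2 + t.2.1.2.2 + t.2.2.1.2.2 + t.2.2.2.2.2 = 0

lemma card_SP (Q : Finset (Finset Λ)) : (SP m j Q).card ≤ m * ((B Q).card * (2 ^ j) ^ 4) := by
  have : (SP m j Q).card ≤ ((univ : Finset (Fin m)) ×ˢ (B Q ×ˢ
      (univ : Finset (V j × V j × V j × V j)))).card := by
    refine card_le_card_of_injOn (fun t => (t.1.1, ((t.1.2.1, t.2.1.2.1, t.2.2.1.2.1, t.2.2.2.2.1),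
      (t.1.2.2, t.2.1.2.2, t.2.2.1.2.2, t.2.2.2.2.2)))) ?_ ?_
    · intro t ht
      have h := (mem_filter.1 (mem_coe.1 ht)).2
      exact mem_coe.2 (mem_product.2 ⟨mem_univ _, mem_product.2 ⟨h.2.2.2, mem_univ _⟩⟩)
    · rintro ⟨⟨c1, l1, u1⟩, ⟨c2, l2, u2⟩, ⟨c3, l3, u3⟩, ⟨c4, l4, u4⟩⟩ ht
        ⟨⟨c1', l1', u1'⟩, ⟨c2', l2', u2'⟩, ⟨c3', l3', u3'⟩, ⟨c4', l4', u4'⟩⟩ ht' h
      have h1 := (mem_filter.1 (mem_coe.1 ht)).2
      have h2 := (mem_filter.1 (mem_coe.1 ht')).2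
      simp only [Prod.mk.injEq] at h h1 h2 ⊢
      obtain ⟨e0, ⟨e1, e2, e3, e4⟩, e5, e6, e7, e8⟩ := h
      obtain ⟨a2, a3, a4, -⟩ := h1
      obtain ⟨b2, b3, b4, -⟩ := h2
      subst a2 a3 a4 b2 b3 b4 e0
      exact ⟨⟨rfl, e1, e5⟩, ⟨rfl, e2, e6⟩, ⟨rfl, e3, e7⟩, rfl, e4, e8⟩
  refine this.trans (le_of_eq ?_)
  rw [card_product, card_product, card_univ, card_univ, Fintype.card_fin, Fintype.card_prod,
    Fintype.card_prod, Fintype.card_prod]
  have hV : Fintype.card (V j) = 2 ^ j := by simp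
  rw [hV]
  ring

lemma card_SD : (SD m Λ j).card ≤ (m * Fintype.card Λ) ^ 2 * (2 ^ j) ^ 3 := by
  have : (SD m Λ j).card ≤ (univ : Finset ((Fin m × Λ) × (Fin m × Λ) × (V j × V j × V j))).card := by
    refine card_le_card_of_injOn (fun t => ((t.1.1, t.1.2.1), (t.2.2.1.1, t.2.2.1.2.1),
      (t.1.2.2, t.2.1.2.2, t.2.2.1.2.2))) (fun _ _ => mem_coe.2 (mem_univ _)) ?_
    rintro ⟨⟨c1, l1, u1⟩, ⟨c2, l2, u2⟩, ⟨c3, l3, u3⟩, ⟨c4, l4, u4⟩⟩ ht
        ⟨⟨c1', l1', u1'⟩, ⟨c2', l2', u2'⟩, ⟨c3', l3', u3'⟩, ⟨c4', l4', u4'⟩⟩ ht' h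
    have h1 := (mem_filter.1 (mem_coe.1 ht)).2
    have h2 := (mem_filter.1 (mem_coe.1 ht')).2
    simp only [Prod.mk.injEq] at h h1 h2 ⊢
    obtain ⟨⟨e0, e1⟩, ⟨e2, e3⟩, e4, e5, e6⟩ := h
    obtain ⟨a2, a3, a4, a5, a6⟩ := h1
    obtain ⟨b2, b3, b4, b5, b6⟩ := h2
    subst a2 a3 a4 a5 b2 b3 b4 b5 e0 e1 e2 e3 e4 e5 e6
    have : u4 = u4' := by
      have := a6.trans b6.symm
      exact add_left_cancel this
    exact ⟨⟨rfl, rfl, rfl⟩, ⟨rfl, rfl, rfl⟩, ⟨rfl, rfl, rfl⟩, rfl, rfl, this⟩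
  refine this.trans (le_of_eq ?_)
  have hV : Fintype.card (V j) = 2 ^ j := by simp
  simp only [card_univ, Fintype.card_prod, hV, Fintype.card_fin]
  ring

/-- the blocks in terms of four vertices -/
lemma bad_four {Q : Finset (Finset Λ)} {f : Fin n → Lab m Λ j} {p q r s : Fin n} (hpq : p ≠ q)
    (hpr : p ≠ r) (hps : p ≠ s) (hqr : q ≠ r) (hqs : q ≠ s) (hrs : r ≠ s)
    (h : Bad Q f {p, q, r, s}) :
    (f p, f q, f r, f s) ∈ SP m j Q ∨ (f p, f q, f r, f s) ∈ SD m Λ j ∨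
      (f p, f r, f q, f s) ∈ SD m Λ j ∨ (f p, f s, f q, f r) ∈ SD m Λ j := by
  classical
  rcases h with ⟨⟨c, hc⟩, hQ⟩ | ⟨A, hA, hA2, hk, hk', h0⟩
  · left
    have h1 := hc p (by simp)
    have h2 := hc q (by simp)
    have h3 := hc r (by simp)
    have h4 := hc s (by simp)
    refine mem_filter.2 ⟨mem_univ _, h2.trans h1.symm, h3.trans h1.symm, h4.trans h1.symm,
      mem_filter.2 ⟨mem_univ _, ?_⟩⟩
    simpa only [image_insert, image_singleton] using hQ
  · right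
    have h0' : vec f p + vec f q + vec f r + vec f s = 0 := by
      rw [sum_insert (by simp [hpq, hpr, hps]), sum_insert (by simp [hqr, hqs]),
        sum_insert (by simp [hrs]), sum_singleton] at h0
      rw [← h0]
      abel
    -- we may assume that `p` is in `A`
    obtain ⟨A, hA, hA2, hk, hk', hpA⟩ : ∃ A ⊆ ({p, q, r, s} : Finset (Fin n)), A.card = 2 ∧
        (∃ k, ∀ v ∈ A, kap f v = k) ∧ (∃ k, ∀ v ∈ ({p, q, r, s} : Finset (Fin n)) \ A, kap f v = k) ∧
        p ∈ A := by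
      by_cases hpA : p ∈ A
      · exact ⟨A, hA, hA2, hk, hk', hpA⟩
      · refine ⟨_, sdiff_subset (t := A), ?_, hk', ?_, mem_sdiff.2 ⟨by simp, hpA⟩⟩
        · rw [card_sdiff_of_subset hA, hA2, card_insert_of_notMem (by simp [hpq, hpr, hps]),
            card_insert_of_notMem (by simp [hqr, hqs]), card_insert_of_notMem (by simp [hrs]),
            card_singleton]
        · rw [Finset.sdiff_sdiff_eq_self hA]
          exact hk
    obtain ⟨k, hk⟩ := hk
    obtain ⟨k', hk'⟩ := hk'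
    have hce : (A.erase p).card = 1 := by rw [card_erase_of_mem hpA, hA2]
    obtain ⟨t, ht⟩ := card_eq_one.1 hce
    have hAt : A = {p, t} := by rw [← insert_erase hpA, ht]
    have htA : t ∈ A := by rw [hAt]; simp
    have htp : t ≠ p := by
      have : t ∈ A.erase p := by rw [ht]; simp
      exact ne_of_mem_erase this
    have hkp := hk p hpA
    have hkt := hk t htA
    have htZ := hA htA
    have hcl : ∀ {v w : Fin n}, kap f v = kap f w → (f w).1 = (f v).1 ∧ (f w).2.1 = (f v).2.1 := by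
      intro v w h
      exact ⟨(congrArg Prod.fst h).symm, (congrArg Prod.snd h).symm⟩
    have hmem : ∀ v, v ∈ ({p, q, r, s} : Finset (Fin n)) → v ≠ p → v ≠ t → kap f v = k' := by
      intro v hv h1 h2
      refine hk' v (mem_sdiff.2 ⟨hv, ?_⟩)
      rw [hAt]
      simp [h1, h2]
    simp only [mem_insert, mem_singleton] at htZ
    rcases htZ with rfl | rfl | rfl | rfl
    · exact absurd rfl htp
    · left
      have e1 := hmem r (by simp) hpr.symm hqr.symm
      have e2 := hmem s (by simp) hps.symm hqs.symm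
      refine mem_filter.2 ⟨mem_univ _, (hcl (hkp.trans hkt.symm)).1, (hcl (hkp.trans hkt.symm)).2,
        (hcl (e1.trans e2.symm)).1, (hcl (e1.trans e2.symm)).2, h0'⟩
    · right; left
      have e1 := hmem q (by simp) hpq.symm hqr
      have e2 := hmem s (by simp) hps.symm hrs.symm
      refine mem_filter.2 ⟨mem_univ _, (hcl (hkp.trans hkt.symm)).1, (hcl (hkp.trans hkt.symm)).2,
        (hcl (e1.trans e2.symm)).1, (hcl (e1.trans e2.symm)).2, ?_⟩
      rw [← h0']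
      show vec f p + vec f t + vec f q + vec f s = _
      abel
    · right; right
      have e1 := hmem q (by simp) hpq.symm hqs
      have e2 := hmem r (by simp) hpr.symm hrs
      refine mem_filter.2 ⟨mem_univ _, (hcl (hkp.trans hkt.symm)).1, (hcl (hkp.trans hkt.symm)).2,
        (hcl (e1.trans e2.symm)).1, (hcl (e1.trans e2.symm)).2, ?_⟩
      rw [← h0']
      show vec f p + vec f t + vec f q + vec f r = _
      abel

/-- the expected density of the blocks -/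
noncomputable def dens (N b m j : ℕ) : ℝ :=
  (b : ℝ) / ((N : ℝ) ^ 4 * (m : ℝ) ^ 3) + 3 / (((m : ℝ) * (N : ℝ)) ^ 2 * 2 ^ j)

/-- the number of maps for which a 4-set is a block -/
theorem card_bad [Nonempty Λ] (Q : Finset (Finset Λ)) {Z : Finset (Fin n)} (hZ : Z.card = 4) :
    open Classical in ((univ.filter fun f : Fin n → Lab m Λ j => Bad Q f Z).card : ℝ) ≤
      dens (Fintype.card Λ) (B Q).card m j * (Fintype.card (Lab m Λ j) : ℝ) ^ n := by
  classical
  obtain ⟨p, q, r, s, hpq, hpr, hps, hqr, hqs, hrs, rfl⟩ := card_eq_four.1 hZ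
  set N := Fintype.card Λ with hN
  have hN0 : 0 < N := Fintype.card_pos
  have hm0 : 0 < m := Nat.pos_of_ne_zero (NeZero.ne m)
  have hT : Fintype.card (Lab m Λ j) = m * (N * 2 ^ j) := by
    rw [Fintype.card_prod, Fintype.card_prod, Fintype.card_fin]
    simp [hN]
  set E : Finset (Lab m Λ j × Lab m Λ j × Lab m Λ j × Lab m Λ j) → Fin n → Fin n → Fin n →
    Finset (Fin n → Lab m Λ j) := fun S a b c => univ.filter fun f => (f p, f a, f b, f c) ∈ S with hE
  have hsub : (univ.filter fun f : Fin n → Lab m Λ j => Bad Q f {p, q, r, s}) ⊆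
      E (SP m j Q) q r s ∪ (E (SD m Λ j) q r s ∪ (E (SD m Λ j) r q s ∪ E (SD m Λ j) s q r)) := by
    intro f hf
    have h := bad_four hpq hpr hps hqr hqs hrs (mem_filter.1 hf).2
    simp only [hE, mem_union, mem_filter, mem_univ, true_and]
    exact h
  have hle : ((univ.filter fun f : Fin n → Lab m Λ j => Bad Q f {p, q, r, s}).card : ℝ) ≤
      (E (SP m j Q) q r s).card + ((E (SD m Λ j) q r s).card + ((E (SD m Λ j) r q s).card +
        (E (SD m Λ j) s q r).card)) := by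
    have := (card_le_card hsub).trans ((card_union_le _ _).trans (Nat.add_le_add_left
      ((card_union_le _ _).trans (Nat.add_le_add_left (card_union_le _ _) _)) _))
    exact_mod_cast this
  have hTpos : (0 : ℝ) < (Fintype.card (Lab m Λ j) : ℝ) ^ 4 := by
    rw [hT]
    positivity
  have key : ∀ (S : Finset (Lab m Λ j × Lab m Λ j × Lab m Λ j × Lab m Λ j)) (a b c : Fin n),
      p ≠ a → p ≠ b → p ≠ c → a ≠ b → a ≠ c → b ≠ c →
      ((E S a b c).card : ℝ) = (S.card : ℝ) / (Fintype.card (Lab m Λ j) : ℝ) ^ 4 *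
        (Fintype.card (Lab m Λ j) : ℝ) ^ n := by
    intro S a b c h1 h2 h3 h4 h5 h6
    have h := card_four h1 h2 h3 h4 h5 h6 S
    rw [div_mul_eq_mul_div, eq_div_iff hTpos.ne']
    exact_mod_cast h
  rw [key _ _ _ _ hpq hpr hps hqr hqs hrs, key _ _ _ _ hpq hpr hps hqr hqs hrs,
    key _ _ _ _ hpr hpq hps hqr.symm hrs hqs, key _ _ _ _ hps hpq hpr hqs.symm hrs.symm hqr] at hle
  have hP : ((SP m j Q).card : ℝ) ≤ (m : ℝ) * ((B Q).card * (2 ^ j) ^ 4) := by
    exact_mod_cast card_SP (m := m) (j := j) Q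
  have hD : ((SD m Λ j).card : ℝ) ≤ ((m : ℝ) * N) ^ 2 * (2 ^ j) ^ 3 := by
    exact_mod_cast card_SD (m := m) (j := j) (Λ := Λ)
  have hTn : (0 : ℝ) ≤ (Fintype.card (Lab m Λ j) : ℝ) ^ n := by positivity
  refine hle.trans ?_
  rw [← add_mul, ← add_mul, ← add_mul]
  refine mul_le_mul_of_nonneg_right ?_ hTn
  rw [← add_div, ← add_div, ← add_div, div_le_iff₀ hTpos]
  have hcast : (Fintype.card (Lab m Λ j) : ℝ) = (m : ℝ) * ((N : ℝ) * 2 ^ j) := by
    rw [hT]; push_cast; ring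
  rw [hcast]
  have hm' : (m : ℝ) ≠ 0 := by exact_mod_cast hm0.ne'
  have hN' : (N : ℝ) ≠ 0 := by exact_mod_cast hN0.ne'
  have h2' : (2 : ℝ) ^ j ≠ 0 := by positivity
  have e : dens N (B Q).card m j * ((m : ℝ) * ((N : ℝ) * 2 ^ j)) ^ 4 =
      (m : ℝ) * ((B Q).card * (2 ^ j) ^ 4) + 3 * (((m : ℝ) * N) ^ 2 * (2 ^ j) ^ 3) := by
    unfold dens
    field_simp
  rw [e]
  linarith

/-- the systems on `n` points -/
theorem main [Nonempty Λ] {Q : Finset (Finset Λ)} {a : ℕ}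
    (hcov : ∀ X : Finset Λ, X.card = a + 1 → ∃ e ∈ Q, e ⊆ X)
    (hQ : ∀ e ∈ Q, e.card = 4) (m j : ℕ) [NeZero m] (s : ℕ) (hs : 4 + s = a * m + 2 ^ j + 2) :
    Pool.Agent.H613T.TD s 4 (dens (Fintype.card Λ) (B Q).card m j) := by
  classical
  intro n
  set F : (Fin n → Lab m Λ j) → Finset (Finset (Fin n)) := fun f =>
    (powersetCard 4 univ).filter fun Z => Bad Q f Z with hF
  have hsum : ∑ f, ((F f).card : ℝ) ≤ (n.choose 4 : ℝ) *
      (dens (Fintype.card Λ) (B Q).card m j * (Fintype.card (Lab m Λ j) : ℝ) ^ n) := by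
    have h1 : ∑ f, ((F f).card : ℝ) = ∑ Z ∈ powersetCard 4 (univ : Finset (Fin n)),
        ((univ.filter fun f : Fin n → Lab m Λ j => Bad Q f Z).card : ℝ) := by
      simp only [hF, card_filter]
      push_cast
      rw [sum_comm]
    rw [h1]
    calc ∑ Z ∈ powersetCard 4 (univ : Finset (Fin n)),
          ((univ.filter fun f : Fin n → Lab m Λ j => Bad Q f Z).card : ℝ)
        ≤ ∑ _Z ∈ powersetCard 4 (univ : Finset (Fin n)),
          (dens (Fintype.card Λ) (B Q).card m j * (Fintype.card (Lab m Λ j) : ℝ) ^ n) :=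
          sum_le_sum fun Z hZ => card_bad Q (mem_powersetCard.1 hZ).2
      _ = _ := by rw [sum_const, card_powersetCard, card_univ, Fintype.card_fin, nsmul_eq_mul]
  obtain ⟨f, -, hf⟩ : ∃ f ∈ (univ : Finset (Fin n → Lab m Λ j)), ((F f).card : ℝ) ≤
      (n.choose 4 : ℝ) * dens (Fintype.card Λ) (B Q).card m j := by
    refine exists_le_of_sum_le (univ_nonempty) ?_
    rw [sum_const, card_univ, nsmul_eq_mul, Fintype.card_fun, Fintype.card_fin]
    refine hsum.trans (le_of_eq ?_)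
    push_cast
    ring
  refine ⟨F f, ⟨fun Z hZ => ⟨subset_univ _, (mem_powersetCard.1 (mem_filter.1 hZ).1).2⟩,
    fun Y _ hY => ?_⟩, ?_⟩
  · obtain ⟨Z, hZY, hZc, hZb⟩ := cover hcov hQ f (Y := Y) (by omega)
    exact ⟨Z, mem_filter.2 ⟨mem_powersetCard.2 ⟨subset_univ _, hZc⟩, hZb⟩, hZY⟩
  · rw [mul_comm]
    exact hf

end Pool.Agent.H69.Col4
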