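import Pool.Graph.R_pool_sql_team_seeded_64922ed1.X44.TS.Sys

/-!
Systems of 4-sets with coloured repetitions: every vertex gets a component `c`, a label `l` and a
vector `u`.  The blocks are the 4-sets inside one component whose labels form a member of the base
system, and the 4-sets that consist of two pairs, each inside one class (component and label), the
sum of the four vectors being zero.
-/

set_option autoImplicit false
set_option linter.unusedSectionVars false

open Finset

namespace Pool.Agent.H69.Col4

open Pool.Agent.X44.TS (V add_self_V card_fib)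

/-- the labels -/
abbrev Lab (m : ℕ) (Λ : Type) (j : ℕ) := Fin m × Λ × V j

variable {Λ : Type} [Fintype Λ] [DecidableEq Λ] {m j n : ℕ}

/-- the class of a vertex -/
def kap (f : Fin n → Lab m Λ j) (v : Fin n) : Fin m × Λ := ((f v).1, (f v).2.1)

/-- the vector of a vertex -/
def vec (f : Fin n → Lab m Λ j) (v : Fin n) : V j := (f v).2.2

/-- the blocks -/
def Bad (Q : Finset (Finset Λ)) (f : Fin n → Lab m Λ j) (Z : Finset (Fin n)) : Prop :=
  ((∃ c, ∀ v ∈ Z, (f v).1 = c) ∧ Z.image (fun v => (f v).2.1) ∈ Q) ∨
  (∃ A ⊆ Z, A.card = 2 ∧ (∃ k, ∀ v ∈ A, kap f v = k) ∧ (∃ k, ∀ v ∈ Z \ A, kap f v = k) ∧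
    ∑ v ∈ Z, vec f v = 0)

/-- the sums of two vectors of a set of vertices -/
def Del (f : Fin n → Lab m Λ j) (W : Finset (Fin n)) : Finset (V j) :=
  W.offDiag.image fun p => vec f p.1 + vec f p.2

lemma mem_Del {f : Fin n → Lab m Λ j} {W : Finset (Fin n)} {d : V j} :
    d ∈ Del f W ↔ ∃ v ∈ W, ∃ w ∈ W, v ≠ w ∧ vec f v + vec f w = d := by
  unfold Del
  rw [mem_image]
  constructor
  · rintro ⟨⟨v, w⟩, h, rfl⟩
    rw [mem_offDiag] at h
    exact ⟨v, h.1, w, h.2.1, h.2.2, rfl⟩
  · rintro ⟨v, hv, w, hw, hne, rfl⟩
    exact ⟨(v, w), mem_offDiag.2 ⟨hv, hw, hne⟩, rfl⟩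

lemma card_img_le {f : Fin n → Lab m Λ j} {W : Finset (Fin n)} (hW : W.Nonempty) :
    (W.image (vec f)).card ≤ 1 + ((Del f W).erase 0).card := by
  obtain ⟨v0, hv0⟩ := hW
  have h1 : ((W.image (vec f)).erase (vec f v0)).card ≤ ((Del f W).erase 0).card := by
    refine card_le_card_of_injOn (fun x => x + vec f v0) ?_ ?_
    · intro x hx
      rw [mem_coe, mem_erase, mem_image] at hx
      obtain ⟨hne, v, hv, rfl⟩ := hx
      rw [mem_coe, mem_erase]
      refine ⟨?_, mem_Del.2 ⟨v, hv, v0, hv0, ?_, rfl⟩⟩
      · intro h0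
        apply hne
        have : vec f v + vec f v0 + vec f v0 = vec f v0 := by
          rw [show vec f v + vec f v0 = 0 from h0, zero_add]
        rwa [add_assoc, add_self_V, add_zero] at this
      · rintro rfl
        exact hne rfl
    · intro x _ y _ h
      exact add_right_cancel h
  have h2 := card_erase_of_mem (mem_image_of_mem (vec f) hv0)
  omega

/-- the size of a set of vertices without four members with the sum of vectors zero -/
lemma card_le_of_free {f : Fin n → Lab m Λ j} {W : Finset (Fin n)} (hW : W.Nonempty)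
    (hfree : ∀ Z ⊆ W, Z.card = 4 → ∑ v ∈ Z, vec f v ≠ 0) :
    W.card ≤ 1 + ((Del f W).erase 0).card + 2 * (if (0 : V j) ∈ Del f W then 1 else 0) := by
  classical
  by_cases hinj : Set.InjOn (vec f) W
  · have h1 := card_img_le (f := f) hW
    rw [card_image_of_injOn hinj] at h1
    omega
  · simp only [Set.InjOn, not_forall] at hinj
    obtain ⟨v, hv, v', hv', he, hne⟩ := hinj
    rw [mem_coe] at hv hv'
    have h0 : (0 : V j) ∈ Del f W := mem_Del.2 ⟨v, hv, v', hv', hne, by rw [he, add_self_V]⟩
    rw [if_pos h0]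
    set F0 := W.filter fun w => vec f w = vec f v with hF0
    have hF3 : F0.card ≤ 3 := by
      by_contra h
      obtain ⟨Z, hZ, hZc⟩ := exists_subset_card_eq (show 4 ≤ F0.card by omega)
      refine hfree Z (hZ.trans (filter_subset _ _)) hZc ?_
      rw [sum_congr rfl (fun w hw => (mem_filter.1 (hZ hw)).2), sum_const, hZc,
        show (4 : ℕ) = 2 + 2 from rfl, add_nsmul, two_nsmul, add_self_V]
    have hinj2 : Set.InjOn (vec f) (W \ F0 : Finset (Fin n)) := by
      intro z hz z' hz' hzz
      by_contra hzne
      rw [mem_coe, mem_sdiff] at hz hz'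
      have hzv : vec f z ≠ vec f v := fun h => hz.2 (mem_filter.2 ⟨hz.1, h⟩)
      have hz'v : vec f z' ≠ vec f v := fun h => hz'.2 (mem_filter.2 ⟨hz'.1, h⟩)
      have n1 : v ≠ z := fun h => hzv (by rw [h])
      have n2 : v ≠ z' := fun h => hz'v (by rw [h])
      have n3 : v' ≠ z := fun h => hzv (by rw [he, h])
      have n4 : v' ≠ z' := fun h => hz'v (by rw [he, h])
      refine hfree {v, v', z, z'} ?_ ?_ ?_
      · intro x hx
        simp only [mem_insert, mem_singleton] at hx
        rcases hx with rfl | rfl | rfl | rfl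
        · exact hv
        · exact hv'
        · exact hz.1
        · exact hz'.1
      · rw [card_insert_of_notMem, card_insert_of_notMem, card_insert_of_notMem, card_singleton]
        · simpa using hzne
        · simp [n3, n4]
        · simp [hne, n1, n2]
      · rw [sum_insert, sum_insert, sum_insert, sum_singleton, he, hzz, add_self_V, add_zero,
          add_self_V]
        · simpa using hzne
        · simp [n3, n4]
        · simp [hne, n1, n2]
    have h2 : (W \ F0).card + 1 ≤ (W.image (vec f)).card := by
      have : (insert (vec f v) ((W \ F0).image (vec f))) ⊆ W.image (vec f) := by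
        intro x hx
        rcases mem_insert.1 hx with rfl | hx
        · exact mem_image_of_mem _ hv
        · obtain ⟨w, hw, rfl⟩ := mem_image.1 hx
          exact mem_image_of_mem _ (mem_sdiff.1 hw).1
      refine le_trans ?_ (card_le_card this)
      rw [card_insert_of_notMem, card_image_of_injOn hinj2]
      intro h
      obtain ⟨w, hw, hwv⟩ := mem_image.1 h
      rw [mem_sdiff] at hw
      exact hw.2 (mem_filter.2 ⟨hw.1, hwv⟩)
    have h3 : W.card = F0.card + (W \ F0).card := by
      have h4 := card_sdiff_add_card_eq_card (filter_subset (fun w => vec f w = vec f v) W)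
      rw [← hF0] at h4
      omega
    have h5 := card_img_le (f := f) hW
    omega

/-- the covering property -/
theorem cover {Q : Finset (Finset Λ)} {a : ℕ} (hcov : ∀ X : Finset Λ, X.card = a + 1 → ∃ e ∈ Q, e ⊆ X)
    (hQ : ∀ e ∈ Q, e.card = 4) (f : Fin n → Lab m Λ j) {Y : Finset (Fin n)}
    (hY : Y.card = a * m + 2 ^ j + 2) : ∃ Z ⊆ Y, Z.card = 4 ∧ Bad Q f Z := by
  classical
  by_contra hcon
  push Not at hcon
  have h2j : 1 ≤ 2 ^ j := Nat.one_le_two_pow
  set S := Y.image (kap f) with hS
  have hYS : Y.card = ∑ k ∈ S, (Y.filter fun v => kap f v = k).card :=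
    card_eq_sum_card_fiberwise fun v hv => mem_coe.2 (mem_image_of_mem _ (mem_coe.1 hv))
  -- the number of classes
  have hScard : S.card ≤ a * m := by
    have h1 : S.card = ∑ c : Fin m, (S.filter fun k => k.1 = c).card :=
      card_eq_sum_card_fiberwise fun _ _ => mem_coe.2 (mem_univ _)
    have h2 : ∀ c : Fin m, (S.filter fun k => k.1 = c).card ≤ a := by
      intro c
      by_contra hlt
      have hinj : Set.InjOn Prod.snd ((S.filter fun k => k.1 = c : Finset (Fin m × Λ)) : Set (Fin m × Λ)) := by
        rintro ⟨c1, l1⟩ h1 ⟨c2, l2⟩ h2 h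
        have e1 := (mem_filter.1 (mem_coe.1 h1)).2
        have e2 := (mem_filter.1 (mem_coe.1 h2)).2
        simp only at e1 e2 h
        rw [e1, e2, h]
      obtain ⟨X, hX, hXc⟩ := exists_subset_card_eq
        (show a + 1 ≤ ((S.filter fun k => k.1 = c).image Prod.snd).card by
          rw [card_image_of_injOn hinj]; omega)
      obtain ⟨e, he, heX⟩ := hcov X hXc
      have hg : ∀ l : Λ, ∃ v : Fin n, l ∈ e → v ∈ Y ∧ kap f v = (c, l) := by
        intro l
        by_cases hl : l ∈ e
        · obtain ⟨⟨c', l'⟩, hk, hkl⟩ := mem_image.1 (hX (heX hl))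
          obtain ⟨hkS, hkc⟩ := mem_filter.1 hk
          obtain ⟨v, hv, hvk⟩ := mem_image.1 hkS
          simp only at hkc hkl
          exact ⟨v, fun _ => ⟨hv, by rw [hvk, hkc, hkl]⟩⟩
        · have : Y.Nonempty := card_pos.1 (by omega)
          exact ⟨this.choose, fun h => absurd h hl⟩
      choose g hg using hg
      have hginj : Set.InjOn g e := by
        intro l hl l' hl' h
        have h1 := (hg l hl).2
        have h2 := (hg l' hl').2
        rw [h, h2] at h1
        exact (Prod.mk.inj h1).2.symm
      refine hcon (e.image g) ?_ (by rw [card_image_of_injOn hginj, hQ e he]) (Or.inl ⟨⟨c, ?_⟩, ?_⟩)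
      · intro v hv
        obtain ⟨l, hl, rfl⟩ := mem_image.1 hv
        exact (hg l hl).1
      · intro v hv
        obtain ⟨l, hl, rfl⟩ := mem_image.1 hv
        exact congrArg Prod.fst (hg l hl).2
      · have : (e.image g).image (fun v => (f v).2.1) = e := by
          ext l
          rw [image_image, mem_image]
          constructor
          · rintro ⟨l', hl', rfl⟩
            have := congrArg Prod.snd (hg l' hl').2
            simp only [kap] at this
            simp only [Function.comp]
            rw [this]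
            exact hl'
          · intro hl
            exact ⟨l, hl, congrArg Prod.snd (hg l hl).2⟩
        rw [this]
        exact he
    calc S.card = ∑ c : Fin m, (S.filter fun k => k.1 = c).card := h1
      _ ≤ ∑ _c : Fin m, a := sum_le_sum fun c _ => h2 c
      _ = a * m := by rw [sum_const, card_univ, Fintype.card_fin, smul_eq_mul, mul_comm]
  -- different classes have disjoint sets of sums
  set W : Fin m × Λ → Finset (Fin n) := fun k => Y.filter fun v => kap f v = k with hWdef
  have hdis : ∀ k k' : Fin m × Λ, k ≠ k' → ∀ d : V j, d ∈ Del f (W k) → d ∈ Del f (W k') → False := by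
    intro k k' hkk d hd hd'
    obtain ⟨v, hv, w, hw, hvw, hs⟩ := mem_Del.1 hd
    obtain ⟨v', hv', w', hw', hvw', hs'⟩ := mem_Del.1 hd'
    have kv := (mem_filter.1 hv).2
    have kw := (mem_filter.1 hw).2
    have kv' := (mem_filter.1 hv').2
    have kw' := (mem_filter.1 hw').2
    have n1 : v ≠ v' := by rintro rfl; exact hkk (kv.symm.trans kv')
    have n2 : v ≠ w' := by rintro rfl; exact hkk (kv.symm.trans kw')
    have n3 : w ≠ v' := by rintro rfl; exact hkk (kw.symm.trans kv')
    have n4 : w ≠ w' := by rintro rfl; exact hkk (kw.symm.trans kw')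
    have hc : ({v, w, v', w'} : Finset (Fin n)).card = 4 := by
      rw [card_insert_of_notMem, card_insert_of_notMem, card_insert_of_notMem, card_singleton]
      · simpa using hvw'
      · simp [n3, n4]
      · simp [hvw, n1, n2]
    refine hcon {v, w, v', w'} ?_ hc (Or.inr ⟨{v, w}, ?_, ?_, ⟨k, ?_⟩, ⟨k', ?_⟩, ?_⟩)
    · intro x hx
      simp only [mem_insert, mem_singleton] at hx
      rcases hx with rfl | rfl | rfl | rfl
      · exact (mem_filter.1 hv).1
      · exact (mem_filter.1 hw).1
      · exact (mem_filter.1 hv').1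
      · exact (mem_filter.1 hw').1
    · intro x hx
      simp only [mem_insert, mem_singleton] at hx ⊢
      tauto
    · rw [card_insert_of_notMem (by simpa using hvw), card_singleton]
    · intro x hx
      simp only [mem_insert, mem_singleton] at hx
      rcases hx with rfl | rfl
      · exact kv
      · exact kw
    · intro x hx
      rw [mem_sdiff] at hx
      obtain ⟨hx1, hx2⟩ := hx
      simp only [mem_insert, mem_singleton] at hx1 hx2
      rcases hx1 with rfl | rfl | rfl | rfl
      · exact absurd (Or.inl rfl) hx2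
      · exact absurd (Or.inr rfl) hx2
      · exact kv'
      · exact kw'
    · rw [sum_insert, sum_insert, sum_insert, sum_singleton, hs', ← add_assoc, hs, add_self_V]
      · simpa using hvw'
      · simp [n3, n4]
      · simp [hvw, n1, n2]
  -- no four vertices of a class with sum zero
  have hfree : ∀ k : Fin m × Λ, ∀ Z ⊆ W k, Z.card = 4 → ∑ v ∈ Z, vec f v ≠ 0 := by
    intro k Z hZ hZc h0
    obtain ⟨A, hA, hAc⟩ := exists_subset_card_eq (show 2 ≤ Z.card by omega)
    refine hcon Z (hZ.trans (filter_subset _ _)) hZc (Or.inr ⟨A, hA, hAc, ⟨k, fun v hv => ?_⟩,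
      ⟨k, fun v hv => ?_⟩, h0⟩)
    · exact (mem_filter.1 (hZ (hA hv))).2
    · exact (mem_filter.1 (hZ (mem_sdiff.1 hv).1)).2
  have hne : ∀ k ∈ S, (W k).Nonempty := by
    intro k hk
    obtain ⟨v, hv, hvk⟩ := mem_image.1 hk
    exact ⟨v, mem_filter.2 ⟨hv, hvk⟩⟩
  have hsum1 : ∑ k ∈ S, ((Del f (W k)).erase 0).card ≤ 2 ^ j - 1 := by
    rw [← card_biUnion]
    · have : (S.biUnion fun k => (Del f (W k)).erase 0) ⊆ (univ : Finset (V j)).erase 0 := by
        intro d hd
        obtain ⟨k, _, hk⟩ := mem_biUnion.1 hd
        exact mem_erase.2 ⟨(mem_erase.1 hk).1, mem_univ _⟩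
      refine (card_le_card this).trans ?_
      rw [card_erase_of_mem (mem_univ _), card_univ]
      simp
    · intro k _ k' _ hkk
      rw [Function.onFun, disjoint_left]
      intro d hd hd'
      exact hdis k k' hkk d (mem_erase.1 hd).2 (mem_erase.1 hd').2
  have hsum2 : ∑ k ∈ S, (if (0 : V j) ∈ Del f (W k) then 1 else 0) ≤ 1 := by
    rw [← card_filter]
    refine card_le_one.2 fun k hk k' hk' => ?_
    by_contra hkk
    exact hdis k k' hkk 0 (mem_filter.1 hk).2 (mem_filter.1 hk').2
  have hfin : Y.card ≤ S.card + (∑ k ∈ S, ((Del f (W k)).erase 0).card) +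
      2 * ∑ k ∈ S, (if (0 : V j) ∈ Del f (W k) then 1 else 0) := by
    rw [hYS]
    calc ∑ k ∈ S, (W k).card
        ≤ ∑ k ∈ S, (1 + ((Del f (W k)).erase 0).card +
            2 * (if (0 : V j) ∈ Del f (W k) then 1 else 0)) :=
          sum_le_sum fun k hk => card_le_of_free (hne k hk) (hfree k)
      _ = _ := by
          rw [sum_add_distrib, sum_add_distrib, mul_sum, sum_const, smul_eq_mul, mul_one]
  omega

end Pool.Agent.H69.Col4
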