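import Pool.Agent.H69.Col4.Count
import Pool.Graph.R_pool_sql_team_seeded_64922ed1.X44.TS.Lim

/-!
The limit for many components and many colours.
-/

set_option autoImplicit false
set_option linter.unusedSectionVars false

open Finset Filter Topology

namespace Pool.Agent.H69.Col4

open Pool.Agent.X44.TS (V add_self_V Sid plotkin card_top)

/-- triples of different members of a set -/
def D3 {α : Type} [DecidableEq α] (U : Finset α) : Finset ((_ : α) × (_ : α) × α) :=
  U.sigma fun x => (U.erase x).sigma fun y => (U.erase x).erase y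

lemma card_D3 {α : Type} [DecidableEq α] (U : Finset α) :
    (D3 U).card = U.card * ((U.card - 1) * (U.card - 2)) := by
  unfold D3
  rw [card_sigma]
  have h1 : ∀ x ∈ U, ((U.erase x).sigma fun y => (U.erase x).erase y).card =
      (U.card - 1) * (U.card - 2) := by
    intro x hx
    rw [card_sigma]
    have h2 : ∀ y ∈ U.erase x, ((U.erase x).erase y).card = U.card - 2 := by
      intro y hy
      rw [card_erase_of_mem hy, card_erase_of_mem hx]
      omega
    rw [sum_congr rfl h2, sum_const, card_erase_of_mem hx, smul_eq_mul]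
  rw [sum_congr rfl h1, sum_const, smul_eq_mul]

section
variable {Λ : Type} [Fintype Λ] [DecidableEq Λ]

lemma ne_of_card_four {x y z w : Λ} (h : ({x, y, z, w} : Finset Λ).card = 4) :
    x ≠ y ∧ x ≠ z ∧ x ≠ w ∧ y ≠ z ∧ y ≠ w ∧ z ≠ w := by
  have h3 : ∀ a b c : Λ, ({a, b, c} : Finset Λ).card ≤ 3 := fun a b c => card_le_three
  refine ⟨?_, ?_, ?_, ?_, ?_, ?_⟩ <;> rintro rfl
  · rw [insert_eq_of_mem (by simp)] at h
    have := h3 x z w
    omega
  · rw [insert_eq_of_mem (by simp)] at h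
    have := h3 y x w
    omega
  · rw [insert_eq_of_mem (by simp)] at h
    have := h3 y z x
    omega
  · have e : ({x, y, y, w} : Finset Λ) = {x, y, w} := by ext a; simp
    rw [e] at h
    have := h3 x y w
    omega
  · have e : ({x, y, z, y} : Finset Λ) = {x, y, z} := by ext a; simp; tauto
    rw [e] at h
    have := h3 x y z
    omega
  · have e : ({x, y, z, z} : Finset Λ) = {x, y, z} := by ext a; simp
    rw [e] at h
    have := h3 x y z
    omega

lemma mem_B {Q : Finset (Finset Λ)} {x y z w : Λ} (h : (x, y, z, w) ∈ B Q) :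
    ({x, y, z, w} : Finset Λ) ∈ Q := (mem_filter.1 h).2

/-- a member of the base system comes from at most `24` ordered quadruples -/
lemma card_B_le {Q : Finset (Finset Λ)} (hQ : ∀ e ∈ Q, e.card = 4) : (B Q).card ≤ 24 * Q.card := by
  have h1 : B Q ⊆ Q.biUnion fun e => univ.filter fun t : Λ × Λ × Λ × Λ =>
      ({t.1, t.2.1, t.2.2.1, t.2.2.2} : Finset Λ) = e := by
    intro t ht
    exact mem_biUnion.2 ⟨_, (mem_filter.1 ht).2, mem_filter.2 ⟨mem_univ _, rfl⟩⟩
  refine (card_le_card h1).trans (card_biUnion_le.trans ?_)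
  have h2 : ∀ e ∈ Q, (univ.filter fun t : Λ × Λ × Λ × Λ =>
      ({t.1, t.2.1, t.2.2.1, t.2.2.2} : Finset Λ) = e).card ≤ 24 := by
    intro e he
    have h3 : (univ.filter fun t : Λ × Λ × Λ × Λ =>
        ({t.1, t.2.1, t.2.2.1, t.2.2.2} : Finset Λ) = e).card ≤ (D3 e).card := by
      refine card_le_card_of_injOn (fun t => ⟨t.1, t.2.1, t.2.2.1⟩) ?_ ?_
      · rintro ⟨x, y, z, w⟩ ht
        have h := (mem_filter.1 (mem_coe.1 ht)).2
        simp only at h
        have hc := hQ e he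
        rw [← h] at hc
        obtain ⟨n1, n2, n3, n4, n5, n6⟩ := ne_of_card_four hc
        rw [mem_coe]
        unfold D3
        simp only [mem_sigma, mem_erase, ← h, mem_insert, mem_singleton]
        refine ⟨by simp, ⟨n1.symm, by simp⟩, n4.symm, n2.symm, by simp⟩
      · rintro ⟨x, y, z, w⟩ ht ⟨x', y', z', w'⟩ ht' hh
        have h := (mem_filter.1 (mem_coe.1 ht)).2
        have h' := (mem_filter.1 (mem_coe.1 ht')).2
        simp only at h h'
        simp only [Sigma.mk.injEq, heq_eq_eq] at hh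
        obtain ⟨rfl, rfl, rfl⟩ := hh
        have hc := hQ e he
        have hc' := hc
        rw [← h] at hc
        obtain ⟨n1, n2, n3, n4, n5, n6⟩ := ne_of_card_four hc
        have hw : w ∈ ({x, y, z, w'} : Finset Λ) := by rw [h', ← h]; simp
        simp only [mem_insert, mem_singleton] at hw
        rcases hw with h | h | h | h
        · exact absurd h.symm n3
        · exact absurd h.symm n5
        · exact absurd h.symm n6
        · rw [h]
    refine h3.trans (le_of_eq ?_)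
    rw [card_D3, hQ e he]
  calc ∑ e ∈ Q, _ ≤ ∑ _e ∈ Q, 24 := sum_le_sum h2
    _ = 24 * Q.card := by rw [sum_const, smul_eq_mul, mul_comm]

/-- a base system of sets of sum zero -/
lemma card_B_zero [AddCommGroup Λ] {Q : Finset (Finset Λ)} (hQ : ∀ e ∈ Q, e.card = 4)
    (h0 : ∀ e ∈ Q, ∑ v ∈ e, v = 0) :
    (B Q).card ≤ Fintype.card Λ * ((Fintype.card Λ - 1) * (Fintype.card Λ - 2)) := by
  have h3 : (B Q).card ≤ (D3 (univ : Finset Λ)).card := by
    refine card_le_card_of_injOn (fun t => ⟨t.1, t.2.1, t.2.2.1⟩) ?_ ?_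
    · rintro ⟨x, y, z, w⟩ ht
      obtain ⟨n1, n2, n3, n4, n5, n6⟩ := ne_of_card_four (hQ _ (mem_B (mem_coe.1 ht)))
      rw [mem_coe]
      unfold D3
      simp only [mem_sigma, mem_erase, mem_univ, and_true, true_and]
      exact ⟨n1.symm, n4.symm, n2.symm⟩
    · rintro ⟨x, y, z, w⟩ ht ⟨x', y', z', w'⟩ ht' hh
      simp only [Sigma.mk.injEq, heq_eq_eq] at hh
      obtain ⟨rfl, rfl, rfl⟩ := hh
      have h := mem_B (mem_coe.1 ht)
      have h' := mem_B (mem_coe.1 ht')
      obtain ⟨n1, n2, n3, n4, n5, n6⟩ := ne_of_card_four (hQ _ h)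
      obtain ⟨m1, m2, m3, m4, m5, m6⟩ := ne_of_card_four (hQ _ h')
      have s1 := h0 _ h
      have s2 := h0 _ h'
      rw [sum_insert (by simp [n1, n2, n3]), sum_insert (by simp [n4, n5]),
        sum_insert (by simp [n6]), sum_singleton] at s1
      rw [sum_insert (by simp [m1, m2, m3]), sum_insert (by simp [m4, m5]),
        sum_insert (by simp [m6]), sum_singleton] at s2
      have : w = w' := add_left_cancel (add_left_cancel (add_left_cancel (s1.trans s2.symm)))
      rw [this]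
  refine h3.trans (le_of_eq ?_)
  rw [card_D3, card_univ]

end

/-- the bound for given numbers of components and colours -/
theorem le_of_main {L : ℝ} (hL : ∀ k : ℕ, 4 ≤ k → L ≤ ((k : ℝ) - 1) ^ 3 *
      Pool.Agent.H688R3.TuranGen.t 4 k) {Λ : Type} [Fintype Λ] [DecidableEq Λ] [AddCommGroup Λ]
    {Q : Finset (Finset Λ)} {a : ℕ}
    (hcov : ∀ X : Finset Λ, X.card = a + 1 → ∃ e ∈ Q, e ⊆ X)
    (hQ : ∀ e ∈ Q, e.card = 4) (m j : ℕ) (hm : 0 < m) (hj : 1 ≤ j) :
    L ≤ ((a : ℝ) * m + 2 ^ j + 1) ^ 3 * dens (Fintype.card Λ) (B Q).card m j := by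
  have : NeZero m := ⟨hm.ne'⟩
  have h2 : 2 ≤ 2 ^ j := by
    calc 2 = 2 ^ 1 := rfl
      _ ≤ 2 ^ j := Nat.pow_le_pow_right (by norm_num) hj
  obtain ⟨s, hs⟩ : ∃ s, 4 + s = a * m + 2 ^ j + 2 := ⟨a * m + 2 ^ j + 2 - 4, by omega⟩
  have htd := main hcov hQ m j s hs
  have h1 := hL (4 + s) (by omega)
  have h3 := Pool.Agent.X44.TS.t_le_of_td htd
  refine h1.trans ?_
  have e : (((4 + s : ℕ) : ℝ) - 1) = (a : ℝ) * m + 2 ^ j + 1 := by
    rw [hs]; push_cast; ring
  rw [e]
  exact mul_le_mul_of_nonneg_left h3 (by positivity)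

/-- the bound in the limit -/
theorem limit_bound {L : ℝ} {a N b : ℕ} (ha : 0 < a) (hN : 0 < N)
    (h : ∀ m j : ℕ, 0 < m → 1 ≤ j → L ≤ ((a : ℝ) * m + 2 ^ j + 1) ^ 3 * dens N b m j)
    {y : ℝ} (hy : 0 < y) :
    L ≤ (1 + 1 / y) ^ 3 * ((a : ℝ) ^ 3 * b / (N : ℝ) ^ 4 + 3 * ((a : ℝ) / N) ^ 2 * y) := by
  have ha' : (0 : ℝ) < a := by exact_mod_cast ha
  have hN' : (0 : ℝ) < N := by exact_mod_cast hN
  set μ : ℝ := y / a with hμ
  have hμ0 : 0 < μ := by positivity
  have hpow : Tendsto (fun j : ℕ => (2 : ℝ) ^ j) atTop atTop :=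
    tendsto_pow_atTop_atTop_of_one_lt (by norm_num)
  set M : ℕ → ℕ := fun j => ⌈μ * 2 ^ j⌉₊ with hM
  have hMpos : ∀ j, 0 < M j := fun j => Nat.ceil_pos.2 (by positivity)
  have hx : Tendsto (fun j : ℕ => (M j : ℝ) / 2 ^ j) atTop (𝓝 μ) :=
    (tendsto_nat_ceil_mul_div_atTop hμ0.le).comp hpow
  have hxi : Tendsto (fun j : ℕ => (2 : ℝ) ^ j / (M j : ℝ)) atTop (𝓝 μ⁻¹) := by
    refine (hx.inv₀ hμ0.ne').congr fun j => ?_
    rw [inv_div]
  have hMi : Tendsto (fun j : ℕ => 1 / (M j : ℝ)) atTop (𝓝 0) := by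
    have h1 : Tendsto (fun j : ℕ => ((2 : ℝ) ^ j / (M j : ℝ)) * ((2 : ℝ) ^ j)⁻¹) atTop
        (𝓝 (μ⁻¹ * 0)) := hxi.mul (tendsto_inv_atTop_zero.comp hpow)
    rw [mul_zero] at h1
    refine h1.congr fun j => ?_
    have : (2 : ℝ) ^ j ≠ 0 := by positivity
    field_simp
  have hlim : Tendsto (fun j : ℕ => ((a : ℝ) + 2 ^ j / (M j : ℝ) + 1 / (M j : ℝ)) ^ 3 *
      ((b : ℝ) / (N : ℝ) ^ 4 + 3 * ((M j : ℝ) / 2 ^ j) / (N : ℝ) ^ 2)) atTop
      (𝓝 (((a : ℝ) + μ⁻¹ + 0) ^ 3 * ((b : ℝ) / (N : ℝ) ^ 4 + 3 * μ / (N : ℝ) ^ 2))) :=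
    (((hxi.const_add _).add hMi).pow 3).mul (((hx.const_mul 3).div_const _).const_add _)
  have hle : ∀ᶠ j in atTop, L ≤ ((a : ℝ) + 2 ^ j / (M j : ℝ) + 1 / (M j : ℝ)) ^ 3 *
      ((b : ℝ) / (N : ℝ) ^ 4 + 3 * ((M j : ℝ) / 2 ^ j) / (N : ℝ) ^ 2) := by
    filter_upwards [eventually_ge_atTop 1] with j hj
    have h1 := h (M j) j (hMpos j) hj
    have hMp : (0 : ℝ) < (M j : ℝ) := by exact_mod_cast hMpos j
    have h2 : (2 : ℝ) ^ j ≠ 0 := by positivity
    refine h1.trans (le_of_eq ?_)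
    unfold dens
    field_simp
  have hfin := ge_of_tendsto hlim hle
  refine hfin.trans (le_of_eq ?_)
  rw [hμ]
  field_simp
  ring

/-- the planes of the vector space of dimension six -/
def Planes : Finset (Finset (V 6)) := (powersetCard 4 univ).filter fun e => ∑ v ∈ e, v = 0

lemma planes_card : ∀ e ∈ Planes, e.card = 4 := fun _ he =>
  (mem_powersetCard.1 (mem_filter.1 he).1).2

lemma planes_cov : ∀ X : Finset (V 6), X.card = 9 + 1 → ∃ e ∈ Planes, e ⊆ X := by
  intro X hX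
  by_contra hc
  push Not at hc
  have hS : Sid X := by
    intro Z hZ hZc h0
    exact hc Z (mem_filter.2 ⟨mem_powersetCard.2 ⟨subset_univ _, hZc⟩, h0⟩) hZ
  rcases plotkin hS ⊤ (fun _ => AddSubgroup.mem_top _) with h | h
  · rw [card_top, hX] at h
    norm_num at h
  · omega

lemma card_B_planes : (B Planes).card ≤ 249984 := by
  refine (card_B_zero planes_card fun e he => (mem_filter.1 he).2).trans (le_of_eq ?_)
  have : Fintype.card (V 6) = 64 := by simp
  rw [this]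

end Pool.Agent.H69.Col4
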